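import Pool.Agent.Work.MP_db9399_x4_helper62.BX4P
import Pool.Agent.Work.MP_db9399_oc_helper39.SAS
import Pool.Agent.Work.MP_db9399_oc_helper39.IDX4
import Pool.Agent.Work.MP_db9399_oc_helper42.BASF
import Pool.Agent.Work.MP_db9399_oc_helper55.IDL
import Pool.Agent.Work.MP_db9399_oc_helper55.RCH
import Pool.Agent.Work.MP_db9399_oc_helper61.ASM
import Pool.Agent.Work.MP_db9399_oc_helper68.RSV
import Pool.Agent.Work.MP_db9399_oc_helper68.IDX5
import Pool.Agent.Work.MP_db9399_oc_helper70.AVB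
import Pool.Agent.Work.MP_db9399_oc_helper74.HRD
import Pool.Agent.Work.MP_db9399_oc_helper27.DEM
import Pool.Agent.Work.MP_db9399_oc_helper27.LRGP
import Pool.Agent.Work.MP_db9399_oc_helper34.GRD
import Pool.Agent.Work.MP_db9399_oc_helper22.IDX0
import Pool.Agent.Work.MP_db9399_oc_helper22.IDX1
import Pool.Agent.Work.MP_db9399_oc_helper22.IDX2
import Pool.Agent.Work.MP_db9399_oc_helper22.IDX3

/-!
# MP_db9399: OCB4 and BX4 without hypotheses (helper62)
-/

set_option autoImplicit false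

namespace Pool.Agent.Work.MP_db9399_x4.helper62

open Pool.Agent.Work.MP_db9399_x4

universe u

/-- **OCB4** -/
theorem ocb4 : Stmt_OCB4.{u} :=
  MP_db9399_oc.helper61.stmt_ASM
    (MP_db9399_oc_helper39.stmt_SAS MP_db9399_oc.helper55.stmt_IDL MP_db9399_oc.stmt_HRD
      (MP_db9399_oc.helper68.stmt_RSV MP_db9399_oc.helper55.stmt_RCH)
      MP_db9399_oc_helper27.stmt_DEM MP_db9399_oc_helper70.stmt_AVB
      MP_db9399_oc_helper22.stmt_IDX0 MP_db9399_oc_helper22.stmt_IDX1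
      MP_db9399_oc_helper22.stmt_IDX2 MP_db9399_oc_helper22.stmt_IDX3
      MP_db9399_oc_helper39.stmt_IDX4 MP_db9399_oc.helper68.stmt_IDX5
      MP_db9399_oc_helper34.stmt_GRD MP_db9399_oc_helper27.stmt_LRGP)
    MP_db9399_oc_helper42.stmt_BAS

/-- **BX4** -/
theorem bx4 : Stmt_BX4.{u} := bx4_of_OCB4 ocb4

end Pool.Agent.Work.MP_db9399_x4.helper62
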