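import Pool.Agent.Work.MP_db9399_x4.XF4
import Pool.Agent.Work.MP_db9399_xf_helper62.BX3

/-!
# MP_db9399, all scales: assembly of BX4, the inputs of the local theorems (helper62)
-/

set_option autoImplicit false
set_option linter.unusedSectionVars false

namespace Pool.Agent.Work.MP_db9399_x4.helper62

open Finset Classical
open Pool.Agent.Work.MP_db9399_all (nb)
open Pool.Agent.Work.MP_db9399_nc (nn)
open Pool.Agent.Work.MP_db9399_lt (us)
open Pool.Agent.Work.MP_db9399_da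
open Pool.Agent.Work.MP_db9399_da.helper62 (mem_nb mem_us)
open Pool.Agent.Work.MP_db9399_xf
open Pool.Agent.Work.MP_db9399_x4

universe u

section

variable {V : Type u} [Fintype V] {N J : ℕ}

theorem dec_irrel {α : Sort*} {p : DecidableEq α → Prop} {a b : DecidableEq α} (h : p a) : p b := by
  rw [Subsingleton.elim b a]
  exact h

/-- `LB4` -/
theorem LB4_B {πk C g z θk θ' η η' a a' τ e e1 : ℝ} {M K : ℕ} {S : Fin J → Scl}
    {G : SimpleGraph V} {d : ℕ} {X : XD V N J} {A : PalX} {t : V → V → ℕ}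
    {cR c c0 c1 : V → ℕ} {T1 T2 : Finset V} {U : Finset V} {cU : V → ℕ} {Ex : V → Finset ℕ}
    {x x1 : Fin J → ℝ} {Qn : Fin N → Bool → Finset ℕ} {P2n : Fin N → Finset ℕ}
    (hP : PcX C g z θk θ' η a M S G d X)
    (hR : RgX4 πk C a' η τ e1 S G d X A t cR Ex) (hS : SelX4 K g x1 S G d X t cR Qn P2n)
    (hO : OcbX4 τ e η' K x S G d X t c Qn P2n c0 c1 T1 T2 U cU) (hC : 1 ≤ C) {n : Fin N}
    (hn : X.P.ty n = Ty.B) {θl : ℝ} (hζ : (S (X.sc n)).ζ ≤ θl) (hε : (S (X.sc n)).ε ≤ θl)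
    (hx : x (X.sc n) ≤ θl) (hθ : (S (X.sc n)).θ ≤ θl / 300) :
    LB4 (bk G X.P n) d K C (min (S (X.sc n)).ρ (1 / 1000)) (S (X.sc n)).π (S (X.sc n)).κ θl
      (sdn X.P n) (ptn X.P n) (Qn n) (P2n n) (Fp (xt G X) X t n) (fun v => c0 v.1)
      (fun v => c1 v.1) (Tn X n T1) (Tn X n T2) := by
  have hd : (0 : ℝ) ≤ d := Nat.cast_nonneg d
  have hxd : x (X.sc n) * d ≤ θl * d := mul_le_mul_of_nonneg_right hx hd
  have hρ : min (S (X.sc n)).ρ (1 / 1000) ≤ (S (X.sc n)).ρ := min_le_left _ _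
  have hmem : ∀ (T : Finset V) (v : Ts X.P n), v ∈ Tn X n T ↔ v.1 ∈ T := fun T v => by
    simp [Tn]
  refine
    { VC := card_TsX hP (by linarith) n
      Flt := fun v => Ft_lt hR.lt v.1
      Fx := fun v => (card_FpX hP (Or.inr hn) v).trans (mul_le_mul_of_nonneg_right hζ hd)
      load := fun b => (hR.ldB n hn b).trans (mul_le_mul_of_nonneg_right (by linarith) hd)
      Qlt := hS.Qlt n (Or.inr hn)
      Plt := hS.Plt n (Or.inr hn)
      QQ := hS.QQ n (Or.inr hn)
      QP := hS.QP n (Or.inr hn)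
      Qc := hS.Qc n (Or.inr hn)
      Pc := hS.Pc n (Or.inr hn)
      FQ := hS.rQn n (Or.inr hn)
      sgK := hS.bdd n hn
      cutG := ?_
      cutP := ?_
      bip := ?_
      deg := deg_bkX hP (Or.inr hn) hR.inj
      dgp := ?_
      eqs := hP.bB n hn
      siz := hP.bS n hn
      T12 := ?_
      c0Q := ?_
      c1P := ?_
      c2P := ?_
      c1F := ?_
      pc := ?_
      T1c := fun b => (hO.T1c n hn b).trans hxd
      bal := hO.bal n hn
      hlf := ?_
      unm := ?_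
      n2 := hO.n2 n hn
      nQ := hO.nQ n hn }
  · intro T
    have h1 : min (S (X.sc n)).ρ (1 / 1000) * T.card * (univ \ T).card ≤
        ∑ v ∈ T, ((nb (bk G X.P n) v \ T).card : ℝ) :=
      (mul_le_mul_of_nonneg_right (mul_le_mul_of_nonneg_right hρ
        (Nat.cast_nonneg _)) (Nat.cast_nonneg _)).trans (hP.cut n (Or.inr hn) T)
    exact dec_irrel (p := fun (_ : DecidableEq (Ts X.P n)) =>
      min (S (X.sc n)).ρ (1 / 1000) * T.card * (univ \ T).card ≤
        ∑ v ∈ T, ((nb (bk G X.P n) v \ T).card : ℝ)) h1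
  · intro i T hT
    have h1 : min (S (X.sc n)).ρ (1 / 1000) * T.card * (prt (ptn X.P n) i \ T).card ≤
        ∑ v ∈ T, (((nb (bk G X.P n) v \ T) ∩
          qtr (sdn X.P n) (ptn X.P n) (!(sdn X.P n v)) i).card : ℝ) :=
      (mul_le_mul_of_nonneg_right (mul_le_mul_of_nonneg_right hρ
        (Nat.cast_nonneg _)) (Nat.cast_nonneg _)).trans (hP.cutP n (Or.inr hn) i T hT)
    exact dec_irrel (p := fun (_ : DecidableEq (Ts X.P n)) =>
      min (S (X.sc n)).ρ (1 / 1000) * T.card * (prt (ptn X.P n) i \ T).card ≤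
        ∑ v ∈ T, (((nb (bk G X.P n) v \ T) ∩
          qtr (sdn X.P n) (ptn X.P n) (!(sdn X.P n v)) i).card : ℝ)) h1
  · intro v w h
    exact h.2.2.2.2 (by rw [v.2.2]; exact hn)
  · intro v i
    exact dec_irrel (p := fun (_ : DecidableEq (Ts X.P n)) =>
      |((nb (bk G X.P n) v ∩ prt (ptn X.P n) i).card : ℝ) - d / 2| ≤ θl * d)
      ((hP.bD n hn v i).trans (mul_le_mul_of_nonneg_right hε hd))
  · rw [disjoint_left]
    intro v h1 h2
    exact disjoint_left.1 hO.T12 ((hmem _ _).1 h1) ((hmem _ _).1 h2)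
  · intro v hv
    have := hO.c0Q v.1 (inT_of hn v) fun h => hv ((hmem _ _).2 h)
    rw [v.2.2] at this
    exact this
  · intro v hv
    have := hO.c1P v.1 ((hmem _ _).1 hv)
    rw [v.2.2] at this
    exact this
  · intro v hv
    have := hO.c2P v.1 ((hmem _ _).1 hv)
    rw [v.2.2] at this
    exact this
  · intro v hv
    have hv' : v.1 ∈ T1 ∨ v.1 ∈ T2 := by
      simp only [mem_union, hmem] at hv
      exact hv
    exact hO.c1F v.1 (mem_union.2 hv')
  · intro v w hvw _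
    rw [oc_Tn, oc_Tn]
    exact hO.pcc v.1 w.1 (inT_of hn v) (inT_of hn w) hvw.1
  · intro β
    exact dec_irrel (p := fun (_ : DecidableEq (Ts X.P n)) =>
      |((Tn X n T1 ∩ qtr (sdn X.P n) (ptn X.P n) β false).card : ℝ) -
        (Tn X n T1 ∩ qtr (sdn X.P n) (ptn X.P n) β true).card| ≤ θl * d)
      ((hO.hlf n hn β).trans hxd)
  · intro v
    have h1 : min (S (X.sc n)).ρ (1 / 1000) * d ≤ 1 / 1000 * d :=
      mul_le_mul_of_nonneg_right (min_le_right _ _) hd
    have h2 : min (S (X.sc n)).ρ (1 / 1000) * d ≤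
        (((nb (bk G X.P n) v ∩ prt (ptn X.P n) (ptn X.P n v)) \
          (Tn X n T1 ∪ Tn X n T2)).card : ℝ) := by
      refine le_trans ?_ (hO.unm n hn v)
      linarith
    exact dec_irrel (p := fun (_ : DecidableEq (Ts X.P n)) =>
      min (S (X.sc n)).ρ (1 / 1000) * d ≤
        (((nb (bk G X.P n) v ∩ prt (ptn X.P n) (ptn X.P n v)) \
          (Tn X n T1 ∪ Tn X n T2)).card : ℝ)) h2

/-- `LI3` for a piece of type N -/
theorem LI_N4 {πk C g z θk θ' η a a' τ e e1 : ℝ} {M K : ℕ} {S : Fin J → Scl} {G : SimpleGraph V}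
    {d : ℕ} {X : XD V N J} {A : PalX} {t : V → V → ℕ} {cR c : V → ℕ} {x1 : Fin J → ℝ}
    {Ex : V → Finset ℕ} {Qn : Fin N → Bool → Finset ℕ} {P2n : Fin N → Finset ℕ}
    (hP : PcX C g z θk θ' η a M S G d X) (hR : RgX4 πk C a' η τ e1 S G d X A t cR Ex)
    (hS : SelX4 K g x1 S G d X t cR Qn P2n) (hN : OwnX τ e S G d X t cR Qn P2n c)
    (hC : 1 ≤ C) {n : Fin N} (hn : X.P.ty n = Ty.N)
    {θl : ℝ} (hζ : (S (X.sc n)).ζ ≤ θl / 2) (hd1 : 1 ≤ θl / 2 * d)
    (hθ0 : 0 ≤ (S (X.sc n)).θ) (hθ : (S (X.sc n)).θ ≤ θl / 201) (hx : x1 (X.sc n) ≤ θl)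
    {ηl : ℝ} (hη : g / 400 ≤ ηl) :
    LI3 (bk G X.P n) d C (S (X.sc n)).ρ (S (X.sc n)).π (S (X.sc n)).κ θl ηl (sdn X.P n)
      (ptn X.P n) (Qn n) (P2n n) (Fpo (xt G X) X t c n) ∧
    ∀ i, |((∑ b ∈ Qn n (!i) ∪ P2n n, sgp (Fpo (xt G X) X t c n) (sdn X.P n) (ptn X.P n) i b : ℤ) :
      ℝ)| ≤ θl * d := by
  have hd : (0 : ℝ) ≤ d := Nat.cast_nonneg d
  have hown : ∀ v : Ts X.P n, Owd X v.1 := fun v => Or.inr (inT_of hn v)
  have hpv : ∀ v : Ts X.P n, v.1 ∈ pV X.P n := fun v => by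
    unfold pV
    rw [mem_filter]
    exact ⟨mem_univ _, v.2.1, v.2.2⟩
  have hne : ∀ i, ∀ b ∈ Qn n (!i) ∪ P2n n, ∀ v : Ts X.P n, c v.1 ≠ b := by
    intro i b hb v h
    have := hN.nP n hn v.1 (hpv v)
    rw [h] at this
    rcases mem_union.1 hb with h1 | h1
    · exact this.2 _ h1
    · exact this.1 h1
  have hsg : ∀ i, ∀ b ∈ Qn n (!i) ∪ P2n n,
      sgp (Fpo (xt G X) X t c n) (sdn X.P n) (ptn X.P n) i b =
        sgp (Fp (xt G X) X t n) (sdn X.P n) (ptn X.P n) i b := fun i b hb =>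
    sgp_Fpo (hne i b hb) i
  refine ⟨
    { VC := card_TsX hP (by linarith) n
      Flt := ?_
      Fx := ?_
      load := ?_
      Qlt := hS.Qlt n (Or.inl hn)
      Plt := hS.Plt n (Or.inl hn)
      QQ := hS.QQ n (Or.inl hn)
      QP := hS.QP n (Or.inl hn)
      Qc := hS.Qc n (Or.inl hn)
      Pc := hS.Pc n (Or.inl hn)
      FQ := ?_
      sgQ := ?_
      sl1 := ?_
      cutG := fun T => dec_irrel (p := fun (_ : DecidableEq (Ts X.P n)) =>
        (S (X.sc n)).ρ * T.card * (univ \ T).card ≤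
          ∑ v ∈ T, ((nb (bk G X.P n) v \ T).card : ℝ)) (hP.cut n (Or.inl hn) T)
      cutP := fun i T hT => dec_irrel (p := fun (_ : DecidableEq (Ts X.P n)) =>
        (S (X.sc n)).ρ * T.card * (prt (ptn X.P n) i \ T).card ≤
          ∑ v ∈ T, (((nb (bk G X.P n) v \ T) ∩
            qtr (sdn X.P n) (ptn X.P n) (!(sdn X.P n v)) i).card : ℝ))
              (hP.cutP n (Or.inl hn) i T hT) }, ?_⟩
  · intro v b hb
    unfold Fpo at hb
    rcases mem_insert.1 hb with rfl | hb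
    · exact hN.clt _ (hown v)
    · exact Ft_lt hR.lt v.1 b hb
  · intro v
    have h1 : (Fpo (xt G X) X t c n v).card ≤ (Fp (xt G X) X t n v).card + 1 := by
      unfold Fpo Fp
      exact card_insert_le _ _
    have h2 := card_FpX hP (Or.inl hn) (t := t) v
    have h3 : ((Fpo (xt G X) X t c n v).card : ℝ) ≤ (Fp (xt G X) X t n v).card + 1 := by
      exact_mod_cast h1
    have h4 : (S (X.sc n)).ζ * d ≤ θl / 2 * d := mul_le_mul_of_nonneg_right hζ hd
    linarith
  · intro b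
    have h1 := hR.ldN n hn b
    have h2 := hN.ldN n hn b
    have h3 : (us (Fpo (xt G X) X t c n) b).card ≤ (us (Fp (xt G X) X t n) b).card +
        ((pV X.P n).filter (fun v => c v = b)).card := by
      have h4 : (us (Fpo (xt G X) X t c n) b) ⊆ us (Fp (xt G X) X t n) b ∪
          univ.filter (fun v : Ts X.P n => c v.1 = b) := by
        intro v hv
        rw [mem_us] at hv
        unfold Fpo at hv
        rw [mem_insert] at hv
        rw [mem_union, mem_us, mem_filter]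
        rcases hv with hv | hv
        · exact Or.inr ⟨mem_univ _, hv.symm⟩
        · exact Or.inl hv
      have h5 : (univ.filter (fun v : Ts X.P n => c v.1 = b)).card ≤
          ((pV X.P n).filter (fun v => c v = b)).card := by
        refine card_le_card_of_injOn Subtype.val ?_ (Subtype.val_injective.injOn)
        intro v hv
        rw [mem_coe, mem_filter] at hv ⊢
        exact ⟨hpv v, hv.2⟩
      exact (card_le_card h4).trans ((card_union_le _ _).trans (by omega))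
    have h6 : ((us (Fpo (xt G X) X t c n) b).card : ℝ) ≤ (us (Fp (xt G X) X t n) b).card +
        ((pV X.P n).filter (fun v => c v = b)).card := by exact_mod_cast h3
    have h7 : (S (X.sc n)).θ * d ≤ θl / 201 * d := mul_le_mul_of_nonneg_right hθ hd
    have h8 : 0 ≤ (S (X.sc n)).θ * d := mul_nonneg hθ0 hd
    nlinarith
  · intro v
    rw [disjoint_left]
    intro b hb hb'
    unfold Fpo at hb
    rcases mem_insert.1 hb with rfl | hb
    · exact (hN.nP n hn v.1 (hpv v)).2 _ hb'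
    · exact disjoint_left.1 (hS.rQn n (Or.inl hn) v) hb hb'
  · intro i b hb
    rw [hsg i b hb]
    have h3 := hR.ldN n hn b
    have h4 : 100 * (S (X.sc n)).θ * d ≤ θl * d :=
      mul_le_mul_of_nonneg_right (by linarith) hd
    exact (abs_sgp_le _ _ _ i b).trans (h3.trans h4)
  · intro i
    rw [sum_congr rfl fun b hb => by rw [hsg i b hb]]
    exact (hS.lN n hn i).trans (mul_le_mul_of_nonneg_right hη hd)
  · intro i
    rw [sum_congr rfl fun b hb => hsg i b hb]
    exact (hS.smN n hn i).trans (mul_le_mul_of_nonneg_right hx hd)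

/-- `LN` -/
theorem LN_N4 {πk C g z θk θ' η a a' τ e e1 : ℝ} {M : ℕ} {S : Fin J → Scl} {G : SimpleGraph V}
    {d : ℕ} {X : XD V N J} {A : PalX} {t : V → V → ℕ} {cR c : V → ℕ} {Ex : V → Finset ℕ}
    {Qn : Fin N → Bool → Finset ℕ} {P2n : Fin N → Finset ℕ}
    (hP : PcX C g z θk θ' η a M S G d X) (hR : RgX4 πk C a' η τ e1 S G d X A t cR Ex)
    (hN : OwnX τ e S G d X t cR Qn P2n c) {n : Fin N} (hn : X.P.ty n = Ty.N)
    {θl : ℝ} (hε : (S (X.sc n)).ε ≤ θl) :
    LN (bk G X.P n) d (g / 2) (S (X.sc n)).ρ θl (sdn X.P n) (ptn X.P n)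
      (Fpo (xt G X) X t c n) := by
  have hd : (0 : ℝ) ≤ d := Nat.cast_nonneg d
  refine
    { Vl := hP.nL n hn
      deg := ?_
      dgp := fun v β i => dec_irrel (p := fun (_ : DecidableEq (Ts X.P n)) =>
        |((nb (bk G X.P n) v ∩ qtr (sdn X.P n) (ptn X.P n) β i).card : ℝ) - d / 4| ≤ θl * d)
        ((hP.nD n hn v β i).trans (mul_le_mul_of_nonneg_right hε hd))
      siz := hP.nS n hn
      nbi := fun T => dec_irrel (p := fun (_ : DecidableEq (Ts X.P n)) =>
        (S (X.sc n)).ρ * (d : ℝ) ^ 2 ≤ ∑ v ∈ T, ((nb (bk G X.P n) v ∩ T).card : ℝ) +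
          ∑ v ∈ univ \ T, ((nb (bk G X.P n) v \ T).card : ℝ)) (hP.nbi n hn T) }
  intro v
  have h1 := deg_bkX hP (Or.inl hn) hR.inj v
  have h2 : (Fpo (xt G X) X t c n v).card = (Fp (xt G X) X t n v).card + 1 := by
    unfold Fpo Fp
    exact card_insert_of_notMem (hN.ct v.1 (Or.inr (inT_of hn v)))
  omega

end

end Pool.Agent.Work.MP_db9399_x4.helper62
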