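import Pool.Agent.Work.MP_db9399_x4.XF4
import Pool.Agent.Work.MP_db9399_ownx_helper62.Ownx

/-!
# MP_db9399, all scales: OWNX4 (helper62)
-/

set_option autoImplicit false

namespace Pool.Agent.Work.MP_db9399_x4.helper62

open Pool.Agent.Work.MP_db9399_da
open Pool.Agent.Work.MP_db9399_xf
open Pool.Agent.Work.MP_db9399_x4

universe u

/-- **OWNX4** -/
theorem stmt_OWNX4 : Stmt_OWNX4.{u} := by
  intro πk C g z τ e M _ _ hC hg hg1 _ _ hτ hτe
  obtain ⟨T, hT, h⟩ := MP_db9399_ownx.stmt_OWNC.{u} C g τ e M hC hg hg1 hτ hτe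
  refine ⟨T, hT, fun J S c' hA hc' _ => ?_⟩
  obtain ⟨d0, h⟩ := h J S c' hA hc'
  refine ⟨d0, ?_⟩
  intro V _ N G d X A t c Ex Qn P2n x θk θ' η hd hP _ hR hS
  exact h G d X t c Qn P2n z θk θ' η hd hP hR.toOwX (fun n hn' =>
    ⟨(hS.Pc n (Or.inl hn')).2, fun i => (hS.Qc n (Or.inl hn') i).2⟩)

end Pool.Agent.Work.MP_db9399_x4.helper62
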