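import Pool.Agent.Work.MP_db9399_x4_helper62.Glue4
import Pool.Agent.Work.MP_db9399_x4_helper62.Loc4
import Pool.Agent.Work.MP_db9399_x4_helper62.Ownx4
import Pool.Agent.Work.MP_db9399_iv_helper72.LOCN3

/-!
# MP_db9399, all scales: `Stmt_BX4` from `Stmt_RGX4`, `Stmt_SELP4`, `Stmt_OCB4`, `Stmt_LOCB4`
(helper62)
-/

set_option autoImplicit false
set_option linter.unusedSectionVars false

namespace Pool.Agent.Work.MP_db9399_x4.helper62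

open Finset Classical
open Pool.Agent.Work.MP_db9399_all (nb)
open Pool.Agent.Work.MP_db9399_nc (nn)
open Pool.Agent.Work.MP_db9399_lt (us)
open Pool.Agent.Work.MP_db9399_da
open Pool.Agent.Work.MP_db9399_da.helper62 (mem_nb mem_us)
open Pool.Agent.Work.MP_db9399_xf
open Pool.Agent.Work.MP_db9399_x4

universe u

theorem stmt_BX4_of (hR : Stmt_RGX4.{u}) (hS : Stmt_SELP4.{u}) (hW : Stmt_OWNX4.{u})
    (hO : Stmt_OCB4.{u}) (hB : Stmt_LOCB4.{u}) (hN : Stmt_LOCN3.{u}) : Stmt_BX4.{u} := by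
  intro πk C g z τ e η' M hk1 hk2 hC hg hg1 hz hz1 hτ hτe hez hη'
  obtain ⟨πB, κB, θB, dB, b1, b2, b3, b4⟩ :=
    sk3 (fun ρ h1 h2 => hB C ρ (KX4 C πk) hC h1 h2 (by unfold KX4; omega))
  obtain ⟨πN, κN, θN, dN, n1, n2, n3, n4⟩ :=
    sk3 (fun ρ h1 (_ : ρ ≤ 1) => hN C (g / 2) ρ hC (by linarith) h1)
  obtain ⟨T1, hT1, hO1⟩ := hO πk C g z τ e η' M (fun ρ π κ => θB (min ρ (1 / 1000)) π κ)
    hk1 hk2 hC hg hg1 hz hz1 hτ hτe hez hη' (fun ρ π κ _ _ _ => b3 _ _ _)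
  obtain ⟨T2, hT2, hS1⟩ := hS πk C g z τ e M (fun ρ π κ => θN ρ π κ)
    hk1 hk2 hC hg hg1 hz hz1 hτ hτe (fun ρ π κ _ _ _ => n3 ρ π κ)
  obtain ⟨T3, hT3, hR1⟩ := hR πk C g z τ e M hk1 hk2 hC hg hg1 hz hz1 hτ hτe
  obtain ⟨T4, hT4, hW1⟩ := hW πk C g z τ e M hk1 hk2 hC hg hg1 hz hz1 hτ hτe
  obtain ⟨T5, hT5⟩ : ∃ T5 : Thr, T5 =
      { π0 := fun ρ => min (πB (min ρ (1 / 1000))) (πN ρ)
        κ0 := fun ρ π => min (κB (min ρ (1 / 1000)) π) (κN ρ π)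
        ε0 := fun ρ π κ => min (θB (min ρ (1 / 1000)) π κ) (θN ρ π κ)
        ζ0 := fun ρ π κ ε => min (min (θB (min ρ (1 / 1000)) π κ) (θN ρ π κ / 2)) (τ / 2)
        θ0 := fun ρ π κ ε ζ => min (θB (min ρ (1 / 1000)) π κ / 300) (θN ρ π κ / 201) } :=
    ⟨_, rfl⟩
  have hT5P : T5.Pos := by
    rw [hT5]
    exact
      { π0 := fun ρ h => lt_min (b1 _) (n1 _)
        κ0 := fun ρ π h h' => lt_min (b2 _ _) (n2 _ _)
        ε0 := fun ρ π κ h h' h'' => lt_min (b3 _ _ _) (n3 _ _ _)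
        ζ0 := fun ρ π κ ε h h' h'' h3 => lt_min (lt_min (b3 _ _ _)
          (by have := n3 ρ π κ; positivity)) (by positivity)
        θ0 := fun ρ π κ ε ζ _ _ _ _ _ => lt_min
          (by have := b3 (min ρ (1 / 1000)) π κ; positivity)
          (by have := n3 ρ π κ; positivity) }
  refine ⟨T1.inf (T2.inf (T3.inf (T4.inf T5))), Thr.inf_pos hT1 (Thr.inf_pos hT2
    (Thr.inf_pos hT3 (Thr.inf_pos hT4 hT5P))), ?_⟩
  intro J S c' hA hc' hc'2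
  have hA5 : ∀ s, Adm T5 (S s) := fun s => (hA s).inr.inr.inr.inr
  obtain ⟨d1, hO2⟩ := hO1 J S c' (fun s => (hA s).inl) hc' hc'2
  obtain ⟨d2, hS2⟩ := hS1 J S c' (fun s => (hA s).inr.inl) hc' hc'2
  obtain ⟨d3, hR2⟩ := hR1 J S c' (fun s => (hA s).inr.inr.inl) hc' hc'2
  obtain ⟨d4, hW2⟩ := hW1 J S c' (fun s => (hA s).inr.inr.inr.inl) hc' hc'2
  refine ⟨d1 + d2 + d3 + d4 + 1 + ∑ s, (dB (min (S s).ρ (1 / 1000)) (S s).π (S s).κ +
    dN (S s).ρ (S s).π (S s).κ + ⌈2 / θN (S s).ρ (S s).π (S s).κ⌉₊), ?_⟩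
  intro V _ N G d X A t0 cP m θk θ' η hd hθk hθ' hη hHv hP hA0 hPre
  have hds : ∀ s, dB (min (S s).ρ (1 / 1000)) (S s).π (S s).κ +
      dN (S s).ρ (S s).π (S s).κ + ⌈2 / θN (S s).ρ (S s).π (S s).κ⌉₊ ≤ d := by
    intro s
    have := single_le_sum (f := fun s => dB (min (S s).ρ (1 / 1000)) (S s).π (S s).κ +
      dN (S s).ρ (S s).π (S s).κ + ⌈2 / θN (S s).ρ (S s).π (S s).κ⌉₊)
      (fun _ _ => Nat.zero_le _) (mem_univ s)
    exact le_trans this (by omega)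
  obtain ⟨t, cR, Ex, hRg⟩ := hR2 G d X A t0 cP m θk θ' η (by omega) hP hA0 hPre
  obtain ⟨Qn, P2n, hSl⟩ := hS2 G d X A t cR Ex θk θ' η (by omega) hP hA0 hRg
  obtain ⟨c, hOw⟩ := hW2 G d X A t cR Ex Qn P2n _ θk θ' η (by omega) hP hA0 hRg hSl
  obtain ⟨c0, c1, U1, U2, U, cU, hOc⟩ := hO2 G d X A t cR Ex Qn P2n c _ θk θ' η (by omega)
    hθk hθ' hη hHv hP hA0 hRg hSl hOw
  have hex : ∀ n, ∃ (cb : Ts X.P n → ℕ) (s : Ts X.P n → Ts X.P n → ℕ),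
      (∀ v w, s v w = s w v) ∧
      (X.P.ty n = Ty.B → (∀ v, cb v ∈ oc c0 c1 U1 U2 v.1) ∧
        PEF (bk G X.P n) d (fun v => insert (cb v) (Fp (xt G X) X t n v)) s) ∧
      (X.P.ty n = Ty.N → PEF (bk G X.P n) d (Fpo (xt G X) X t c n) s) := by
    intro n
    have a0 := hA5 (X.sc n)
    have a1 := a0.ρ
    have a2 := a0.π
    have a3 := a0.κ
    have a4 := a0.ε
    have a5 := a0.ζ
    have a6 := a0.θ
    rw [hT5] at a2 a3 a4 a5 a6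
    simp only [le_min_iff] at a2 a3 a4 a5 a6
    rcases hty : X.P.ty n with _ | _ | _ | _
    · exact ⟨fun _ => 0, fun _ _ => 0, fun _ _ => rfl, by simp, by simp⟩
    · exact ⟨fun _ => 0, fun _ _ => 0, fun _ _ => rfl, by simp, by simp⟩
    · -- type N
      have k1 := n3 (S (X.sc n)).ρ (S (X.sc n)).π (S (X.sc n)).κ
      have k2 : 1 ≤ θN (S (X.sc n)).ρ (S (X.sc n)).π (S (X.sc n)).κ / 2 * d := by
        have h1 := Nat.le_ceil (2 / θN (S (X.sc n)).ρ (S (X.sc n)).π (S (X.sc n)).κ)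
        have h2 : ((⌈2 / θN (S (X.sc n)).ρ (S (X.sc n)).π (S (X.sc n)).κ⌉₊ : ℕ) : ℝ) ≤ d := by
          have := hds (X.sc n)
          exact_mod_cast (by omega : ⌈2 / θN (S (X.sc n)).ρ (S (X.sc n)).π
            (S (X.sc n)).κ⌉₊ ≤ d)
        have h3 := h1.trans h2
        rw [div_le_iff₀ k1] at h3
        linarith
      have k4 := LI_N4 hP hRg hSl hOw hC hty a5.2.1.2 k2 a6.1.le a6.2.2 le_rfl
        (ηl := g / 2 / 100) (by linarith)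
      obtain ⟨s, hs⟩ := n4 (S (X.sc n)).ρ (S (X.sc n)).π (S (X.sc n)).κ a1.1 a1.2 a2.1
        a2.2.2 a3.1 a3.2.2 (bk G X.P n) d (sdn X.P n) (ptn X.P n) (Qn n) (P2n n)
        (Fpo (xt G X) X t c n) (by
          have := hds (X.sc n)
          omega) k4.1 (LN_N4 hP hRg hOw hty a4.2.2) k4.2
      exact ⟨fun _ => 0, s, hs.1, by simp, fun _ => hs⟩
    · -- type B
      obtain ⟨cb, s, h1, h2⟩ := b4 (min (S (X.sc n)).ρ (1 / 1000)) (S (X.sc n)).π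
        (S (X.sc n)).κ (lt_min a1.1 (by norm_num)) ((min_le_left _ _).trans a1.2) a2.1
        a2.2.1 a3.1 a3.2.1 (bk G X.P n) d (sdn X.P n) (ptn X.P n) (Qn n) (P2n n)
        (Fp (xt G X) X t n) (fun v => c0 v.1) (fun v => c1 v.1)
        (Tn X n U1) (Tn X n U2) (by
          have := hds (X.sc n)
          omega)
        (LB4_B hP hRg hSl hOc hC hty a5.2.1.1 a4.2.1 le_rfl a6.2.1)
      refine ⟨cb, s, h2.1, fun _ => ⟨fun v => ?_, h2⟩, by simp⟩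
      have := h1 v
      rw [oc_Tn] at this
      exact this
  choose cB s s1 s2 s3 using hex
  have hζτ : ∀ s, (S s).ζ < τ := by
    intro s
    have h1 := (hA5 s).ζ
    rw [hT5] at h1
    simp only [le_min_iff] at h1
    linarith [h1.2.2]
  obtain ⟨t2, c2, h1⟩ := glueX4 hP hRg hSl hOw hOc hζτ (by omega) (by linarith) cB s s1
    (fun n hn => (s2 n hn).1) (fun n hn => (s2 n hn).2) (fun n hn => s3 n hn)
  rw [add_halves] at h1
  exact ⟨t2, c2, U, cU, h1⟩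

/-- **BX4** -/
theorem stmt_BX4 (hR : Stmt_RGX4.{u}) (hS : Stmt_SELP4.{u}) (hO : Stmt_OCB4.{u})
    (hB : Stmt_LOCB4.{u}) : Stmt_BX4.{u} :=
  stmt_BX4_of hR hS stmt_OWNX4 hO hB MP_db9399_iv_helper72.stmt_LOCN3

end Pool.Agent.Work.MP_db9399_x4.helper62
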