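import Pool.Agent.Work.MP_db9399_x4_helper62.BX4
import Pool.Agent.Work.MP_db9399_x4_helper44.LOCB4
import Pool.Agent.Work.MP_db9399_x4_helper59.Selp4
import Pool.Agent.Work.MP_db9399_iv_helper38.RGX4F

/-!
# MP_db9399: BX4 from OCB4 (helper62)
-/

set_option autoImplicit false

namespace Pool.Agent.Work.MP_db9399_x4.helper62

open Pool.Agent.Work.MP_db9399_x4

universe u

/-- BX4 from OCB4, all the other inputs are proved -/
theorem bx4_of_OCB4 (hO : Stmt_OCB4.{u}) : Stmt_BX4.{u} :=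
  stmt_BX4 Pool.Agent.Work.MP_db9399_iv_helper38.rgx4
    Pool.Agent.Work.MP_db9399_x4_helper59.stmt_SELP4 hO
    Pool.Agent.Work.MP_db9399_x4_helper44.stmt_LOCB4

end Pool.Agent.Work.MP_db9399_x4.helper62
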