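import Pool.Agent.Work.MP_db9399_x4.XF4
import Pool.Agent.Work.MP_db9399_xf_helper62.BX3

/-!
# MP_db9399, all scales: assembly of BX4, gluing (helper62)
-/

set_option autoImplicit false
set_option linter.unusedSectionVars false

namespace Pool.Agent.Work.MP_db9399_x4.helper62

open Finset Classical
open Pool.Agent.Work.MP_db9399_all (nb)
open Pool.Agent.Work.MP_db9399_nc (nn)
open Pool.Agent.Work.MP_db9399_lt (us)
open Pool.Agent.Work.MP_db9399_da
open Pool.Agent.Work.MP_db9399_da.helper62 (mem_nb gl gl_eq)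
open Pool.Agent.Work.MP_db9399_xf
open Pool.Agent.Work.MP_db9399_x4

universe u

section

variable {V : Type u} [Fintype V] {N J : ℕ}

/-- Gluing: `c2` own colours outside the pieces of type K, `s n` colours of the bulk edges of the
piece `n`. -/
theorem glueX4 {πk C g z θk θ' η η' a a' : ℝ} {M K : ℕ} {S : Fin J → Scl} {G : SimpleGraph V}
    {d : ℕ} {X : XD V N J} {A : PalX} {t : V → V → ℕ} {cR c c0 c1 : V → ℕ} {T1 T2 : Finset V}
    {U : Finset V} {cU : V → ℕ} {Ex : V → Finset ℕ}
    {τ e x0 e1 : ℝ} {x x1 : Fin J → ℝ} {Qn : Fin N → Bool → Finset ℕ} {P2n : Fin N → Finset ℕ}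
    (hP : PcX C g z θk θ' η a M S G d X)
    (hR : RgX4 πk C a' η τ e1 S G d X A t cR Ex) (hS : SelX4 K g x1 S G d X t cR Qn P2n)
    (hN : OwnX τ x0 S G d X t cR Qn P2n c)
    (hO : OcbX4 τ e η' K x S G d X t c Qn P2n c0 c1 T1 T2 U cU) (hζ : ∀ s, (S s).ζ < τ)
    (hd0 : 0 < d) (hx0 : 0 ≤ x0)
    (cB : ∀ n, Ts X.P n → ℕ) (s : ∀ n, Ts X.P n → Ts X.P n → ℕ)
    (hsym : ∀ n v w, s n v w = s n w v)
    (hcB : ∀ n, X.P.ty n = Ty.B → ∀ v, cB n v ∈ oc c0 c1 T1 T2 v.1)
    (hsB : ∀ n, X.P.ty n = Ty.B →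
      PEF (bk G X.P n) d (fun v => insert (cB n v) (Fp (xt G X) X t n v)) (s n))
    (hsN : ∀ n, X.P.ty n = Ty.N → PEF (bk G X.P n) d (Fpo (xt G X) X t c n) (s n)) :
    ∃ (t2 : V → V → ℕ) (c2 : V → ℕ), PosX4 η η' τ (x0 + e) G d X A t2 c2 U cU := by
  set t2 : V → V → ℕ := fun v w => if (bulk G X.P).Adj v w then gl X.P s v w else t v w with ht2
  set c2 : V → ℕ := fun v => if h : InT X Ty.B v then cB (X.P.pc v) ⟨v, h.1, rfl⟩ else c v
    with hc2
  have e1 : ∀ v w, (bulk G X.P).Adj v w → t2 v w = gl X.P s v w := fun v w h => by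
    simp only [ht2, h, if_true]
  have e2 : ∀ v w, ¬ (bulk G X.P).Adj v w → t2 v w = t v w := fun v w h => by
    simp only [ht2, h, if_false]
  have eO : ∀ v, Owd X v → c2 v = c v := fun v hv => by
    simp only [hc2]
    rw [dif_neg (owd_not hv).2]
  have eB : ∀ n, X.P.ty n = Ty.B → ∀ v : Ts X.P n, c2 v.1 = cB n v := by
    rintro n hn ⟨v, hv0, rfl⟩
    simp only [hc2]
    rw [dif_pos (show InT X Ty.B v from ⟨hv0, hn⟩)]
  have eoc : ∀ v, InT X Ty.B v → c2 v ∈ oc c0 c1 T1 T2 v := by
    intro v hv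
    have := hcB _ hv.2 ⟨v, hv.1, rfl⟩
    rw [← eB _ hv.2 ⟨v, hv.1, rfl⟩] at this
    exact this
  -- the new thin colours
  have hxt2 : ∀ v w, (xt G X).Adj v w → t2 v w = t v w := fun v w h => e2 v w h.1.2
  have hFt2 : ∀ v, Ft (xt G X) t2 v = Ft (xt G X) t v := fun v =>
    Ft_congr (fun _ => Iff.rfl) fun w h => hxt2 v w h
  -- bulk edges of xo
  have hbulk : ∀ v w, (xo G X).Adj v w → (bulk G X.P).Adj v w →
      ∃ (n : Fin N) (a b : Ts X.P n), a.1 = v ∧ b.1 = w ∧ (bk G X.P n).Adj a b ∧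
        t2 v w = s n a b ∧ (X.P.ty n = Ty.B ∨ X.P.ty n = Ty.N) := by
    intro v w ho h
    refine ⟨X.P.pc v, ⟨v, h.2.1, rfl⟩, ⟨w, h.2.2.1, h.2.2.2.1.symm⟩, rfl, rfl, h, ?_, ?_⟩
    · rw [e1 v w h]
      exact gl_eq X.P s (X.P.pc v) ⟨v, h.2.1, rfl⟩ ⟨w, h.2.2.1, h.2.2.2.1.symm⟩
    · rcases ty_cases hP v with h1 | h1 | h1
      · rcases h1 with h1 | h1
        · exact absurd h1 h.2.1
        · exact Or.inr h1.2
      · exact Or.inl h1.2
      · exfalso
        have hw : InT X Ty.K w := ⟨h.2.2.1, by rw [← h.2.2.2.1]; exact h1.2⟩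
        exact ho.2 ⟨h1, hw, Or.inl h.2.2.2.1⟩
  have hbF : ∀ v w, (xo G X).Adj v w → (bulk G X.P).Adj v w →
      t2 v w < d + 2 ∧ t2 v w ≠ c2 v ∧ t2 v w ∉ Ft (xt G X) t v := by
    intro v w ho h
    obtain ⟨n, a, b, rfl, rfl, hab, he, hn⟩ := hbulk v w ho h
    rw [he]
    rcases hn with hn | hn
    · have := (hsB n hn).2.1 a b hab
      rw [mem_insert, not_or] at this
      rw [eB n hn a]
      exact ⟨this.1, this.2.1, this.2.2⟩
    · have := (hsN n hn).2.1 a b hab
      have ha : Owd X a.1 := Or.inr ⟨a.2.1, by rw [a.2.2]; exact hn⟩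
      unfold Fpo at this
      rw [mem_insert, not_or] at this
      rw [eO a.1 ha]
      exact ⟨this.1, this.2.1, this.2.2⟩
  -- own colours
  have hocl : ∀ v, InT X Ty.B v → ∀ b ∈ oc c0 c1 T1 T2 v, b < d + 2 ∧
      b ∉ Ft (xt G X) t v := by
    intro v hv b hb
    have hQ : ∀ i, Qn (X.P.pc v) i ⊆ range (d + 2) := hS.Qlt _ (Or.inr hv.2)
    have hP2 : P2n (X.P.pc v) ⊆ range (d + 2) := hS.Plt _ (Or.inr hv.2)
    have h0 : v ∉ T1 → c0 v < d + 2 ∧ c0 v ∉ Ft (xt G X) t v := by
      intro h1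
      have h2 := hO.c0Q v hv h1
      refine ⟨mem_range.1 (hQ _ h2), fun h3 => ?_⟩
      exact disjoint_left.1 (hS.rQn _ (Or.inr hv.2) ⟨v, hv.1, rfl⟩) h3 h2
    have h1 : v ∈ T1 ∪ T2 → c1 v < d + 2 ∧ c1 v ∉ Ft (xt G X) t v := by
      intro h1
      refine ⟨?_, hO.c1F v h1⟩
      rcases mem_union.1 h1 with h1 | h1
      · exact mem_range.1 (sdiff_subset (hO.c1P v h1))
      · rcases mem_union.1 (hO.c2P v h1).2 with h2 | h2
        · exact mem_range.1 (hP2 h2)
        · exact mem_range.1 (hQ _ h2)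
    unfold oc at hb
    by_cases k1 : v ∈ T1
    · rw [if_pos k1, mem_singleton] at hb
      rw [hb]
      exact h1 (mem_union_left _ k1)
    · rw [if_neg k1] at hb
      by_cases k2 : v ∈ T2
      · rw [if_pos k2, mem_insert, mem_singleton] at hb
        rcases hb with rfl | rfl
        · exact h0 k1
        · exact h1 (mem_union_right _ k2)
      · rw [if_neg k2, mem_singleton] at hb
        rw [hb]
        exact h0 k1
  have hcl : ∀ v, ¬ InT X Ty.K v → c2 v < d + 2 ∧ c2 v ∉ Ft (xt G X) t v := by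
    intro v hv
    rcases ty_cases hP v with h1 | h1 | h1
    · rw [eO v h1]
      exact ⟨hN.clt v h1, hN.ct v h1⟩
    · exact hocl v h1 _ (eoc v h1)
    · exact absurd h1 hv
  have hFto : ∀ v, InT X Ty.K v → Ft (xo G X) t2 v = Ft (xt G X) t v := by
    intro v hv
    rw [← hFt2 v]
    exact Ft_congr (fun w => xo_K hv w) fun _ _ => rfl
  refine ⟨t2, c2, ?_⟩
  · refine { UK := hO.UK, Uc := hO.Uc, Ui := hO.Ui, Ua := hO.Ua, Ul := hO.Ul, Uf := ?_, Uo := ?_,
             Ub := fun n hn hnd b hb => (hO.Ub n hn hnd b hb).trans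
               (mul_le_mul_of_nonneg_right (by linarith) (Nat.cast_nonneg _)),
             sym := ?_, lt := ?_, inj := ?_, clt := fun v hv => (hcl v hv).1, cc := ?_, ct := ?_,
             rK := ?_, lK := ?_, dif := ?_, non := ?_ }
    · intro y hy
      rw [hFt2 y]
      exact hO.Uf y hy
    · intro y hy w hw hyw
      rcases ty_cases hP w with h1 | h1 | h1
      · rw [eO w h1]
        exact hO.Uo y hy w h1 hyw
      · intro h2
        apply hO.rsv y hy w h1 hyw
        rw [← h2]
        exact eoc w h1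
      · exact absurd h1 hw
    · intro v w
      by_cases h : (bulk G X.P).Adj v w
      · have k1 := gl_eq X.P s (X.P.pc v) ⟨v, h.2.1, rfl⟩ ⟨w, h.2.2.1, h.2.2.2.1.symm⟩
        have k2 := gl_eq X.P s (X.P.pc v) ⟨w, h.2.2.1, h.2.2.2.1.symm⟩ ⟨v, h.2.1, rfl⟩
        rw [e1 v w h, e1 w v h.symm]
        simp only at k1 k2
        rw [k1, k2, hsym]
      · have h' : ¬ (bulk G X.P).Adj w v := fun h' => h h'.symm
        rw [e2 v w h, e2 w v h']
        exact hR.sym v w
    · intro v w h
      by_cases hb : (bulk G X.P).Adj v w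
      · exact (hbF v w h hb).1
      · rw [e2 v w hb]
        exact hR.lt v w (xt_of_xo h hb)
    · intro v w hw w' hw' he
      rw [mem_coe, mem_nb] at hw hw'
      by_cases h : (bulk G X.P).Adj v w
      · by_cases h' : (bulk G X.P).Adj v w'
        · have k1 := gl_eq X.P s (X.P.pc v) ⟨v, h.2.1, rfl⟩ ⟨w, h.2.2.1, h.2.2.2.1.symm⟩
          have k2 := gl_eq X.P s (X.P.pc v) ⟨v, h.2.1, rfl⟩ ⟨w', h'.2.2.1, h'.2.2.2.1.symm⟩
          rw [e1 v w h, e1 v w' h'] at he
          simp only at k1 k2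
          rw [k1, k2] at he
          obtain ⟨_, _, _, _, _, _, _, hn⟩ := hbulk v w hw h
          have hi : Set.InjOn (s (X.P.pc v) ⟨v, h.2.1, rfl⟩)
              (nb (bk G X.P (X.P.pc v)) ⟨v, h.2.1, rfl⟩ : Set (Ts X.P (X.P.pc v))) := by
            rcases ty_cases hP v with h1 | h1 | h1
            · rcases h1 with h1 | h1
              · exact absurd h1 h.2.1
              · exact (hsN _ h1.2).2.2 _
            · exact (hsB _ h1.2).2.2 _
            · exfalso
              have hw1 : InT X Ty.K w := ⟨h.2.2.1, by rw [← h.2.2.2.1]; exact h1.2⟩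
              exact hw.2 ⟨h1, hw1, Or.inl h.2.2.2.1⟩
          have := @hi ⟨w, h.2.2.1, h.2.2.2.1.symm⟩ (by rw [mem_coe, mem_nb]; exact h)
            ⟨w', h'.2.2.1, h'.2.2.2.1.symm⟩ (by rw [mem_coe, mem_nb]; exact h') he
          exact congrArg Subtype.val this
        · exfalso
          rw [e2 v w' h'] at he
          apply (hbF v w hw h).2.2
          rw [he]
          exact mem_Ft (xt_of_xo hw' h')
      · by_cases h' : (bulk G X.P).Adj v w'
        · exfalso
          rw [e2 v w h] at he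
          apply (hbF v w' hw' h').2.2
          rw [← he]
          exact mem_Ft (xt_of_xo hw h)
        · rw [e2 v w h, e2 v w' h'] at he
          apply hR.inj v _ _ he
          · rw [mem_coe, mem_nb]; exact xt_of_xo hw h
          · rw [mem_coe, mem_nb]; exact xt_of_xo hw' h'
    · intro v w hv hw hvw
      rcases ty_cases hP v with h1 | h1 | h1
      · rcases ty_cases hP w with h2 | h2 | h2
        · rw [eO v h1, eO w h2]
          exact hN.cc v w h1 h2 hvw
        · rw [eO v h1]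
          intro h3
          apply hO.pco w v h2 h1 hvw.symm
          rw [h3]
          exact eoc w h2
        · exact absurd h2 hw
      · rcases ty_cases hP w with h2 | h2 | h2
        · rw [eO w h2]
          intro h3
          apply hO.pco v w h1 h2 hvw
          rw [← h3]
          exact eoc v h1
        · intro h3
          have := hO.pcc v w h1 h2 hvw
          exact disjoint_left.1 this (eoc v h1) (by rw [h3]; exact eoc w h2)
        · exact absurd h2 hw
      · exact absurd h1 hv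
    · intro v hv h
      obtain ⟨w, hw, he⟩ := mem_image.1 h
      rw [mem_nb] at hw
      by_cases hb : (bulk G X.P).Adj v w
      · exact (hbF v w hw hb).2.1 he
      · rw [e2 v w hb] at he
        apply (hcl v hv).2
        rw [← he]
        exact mem_Ft (xt_of_xo hw hb)
    · intro v hv
      rw [hFto v hv.1]
      exact hR.rK v hv
    · intro n hn b
      refine le_trans (le_of_eq ?_) (hR.lK n hn b)
      congr 2
      refine filter_congr fun v hv => ?_
      have hv' : v ∉ X.P.V0 ∧ X.P.pc v = n := by simpa [pV] using hv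
      rw [hFto v ⟨hv'.1, by rw [hv'.2]; exact hn⟩]
    · intro n hn _ w w' hw hw' hne h1 h2
      -- vertices of pieces of type B have few neighbours outside
      have hub : ∀ w, InT X Ty.B w → ¬ τ * d ≤ ((nb G w ∩ pV X.P n).card : ℝ) := by
        intro w hw h
        have k1 : nb G w ∩ pV X.P n ⊆ nb (thin G X.P) w := by
          intro v hv
          obtain ⟨v1, v2⟩ := mem_inter.1 hv
          rw [mem_nb] at v1 ⊢
          have v3 : v ∉ X.P.V0 ∧ X.P.pc v = n := by simpa [pV] using v2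
          refine ⟨v1, fun h5 => ?_⟩
          have h6 := h5.2.2.2.1
          rw [v3.2] at h6
          have h7 := hw.2
          rw [h6, hn] at h7
          exact absurd h7 (by decide)
        have k2 := card_le_card k1
        have k3 := hP.thd w (Or.inr hw)
        have k4 : ((nb G w ∩ pV X.P n).card : ℝ) ≤ (nb (thin G X.P) w).card := by exact_mod_cast k2
        have k5 := hζ (X.sc (X.P.pc w))
        have k6 : (0 : ℝ) < d := by exact_mod_cast hd0
        nlinarith
      rcases ty_cases hP w with k1 | k1 | k1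
      · rcases ty_cases hP w' with k2 | k2 | k2
        · rw [eO w k1, eO w' k2]
          exact hN.dif n hn w w' k1 k2 hne h1 h2
        · exact absurd h2 (hub w' k2)
        · exact absurd k2 hw'
      · exact absurd h1 (hub w k1)
      · exact absurd k1 hw
    · intro n hn hnd b hb
      have h1 := hN.non n hn b
      have h2 := hO.non n hn hnd b hb
      have h3 : (univ.filter (fun w => ¬ InT X Ty.K w ∧ c2 w = b ∧
          ((nb G w ∩ pV X.P n).card : ℝ) < τ * d)) ⊆
          (univ.filter (fun w => Owd X w ∧ c w = b ∧ ((nb G w ∩ pV X.P n).card : ℝ) < τ * d)) ∪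
          univ.filter (fun w => InT X Ty.B w ∧ b ∈ oc c0 c1 T1 T2 w ∧
            ((nb G w ∩ pV X.P n).card : ℝ) < τ * d) := by
        intro w hw
        obtain ⟨_, w1, w2, w3⟩ := mem_filter.1 hw
        rcases ty_cases hP w with k1 | k1 | k1
        · exact mem_union_left _ (mem_filter.2 ⟨mem_univ _, k1, by rw [← eO w k1]; exact w2, w3⟩)
        · exact mem_union_right _ (mem_filter.2 ⟨mem_univ _, k1, by rw [← w2]; exact eoc w k1, w3⟩)
        · exact absurd k1 w1
      have h4 : (∑ w ∈ univ.filter (fun w => ¬ InT X Ty.K w ∧ c2 w = b ∧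
          ((nb G w ∩ pV X.P n).card : ℝ) < τ * d), (nb G w ∩ pV X.P n).card) ≤
          (∑ w ∈ univ.filter (fun w => Owd X w ∧ c w = b ∧
            ((nb G w ∩ pV X.P n).card : ℝ) < τ * d), (nb G w ∩ pV X.P n).card) +
          ∑ w ∈ univ.filter (fun w => InT X Ty.B w ∧ b ∈ oc c0 c1 T1 T2 w ∧
            ((nb G w ∩ pV X.P n).card : ℝ) < τ * d), (nb G w ∩ pV X.P n).card := by
        refine (sum_le_sum_of_subset h3).trans ?_
        have := sum_union_inter (s₁ := univ.filter (fun w => Owd X w ∧ c w = b ∧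
          ((nb G w ∩ pV X.P n).card : ℝ) < τ * d)) (s₂ := univ.filter (fun w => InT X Ty.B w ∧
          b ∈ oc c0 c1 T1 T2 w ∧ ((nb G w ∩ pV X.P n).card : ℝ) < τ * d))
          (f := fun w => (nb G w ∩ pV X.P n).card)
        omega
      have h5 : ((∑ w ∈ univ.filter (fun w => ¬ InT X Ty.K w ∧ c2 w = b ∧
          ((nb G w ∩ pV X.P n).card : ℝ) < τ * d), (nb G w ∩ pV X.P n).card : ℕ) : ℝ) ≤ _ :=
        Nat.cast_le.2 h4
      rw [Nat.cast_add] at h5
      linarith

end

end Pool.Agent.Work.MP_db9399_x4.helper62
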